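import Mathlib

set_option autoImplicit false

open Polynomial Finset

namespace Pool.Agent.Results.MP_2c9e21_co.NotPalindromic

/-- The cells of the shifted diagram of the strict partition `ξ` (rows and columns are numbered from
`0`): row `i` has its `ξ i` cells in the columns `i, ..., i + ξ i - 1`. -/
def cells (ξ : List ℕ) : Finset (ℕ × ℕ) :=
  (range ξ.length ×ˢ range (ξ.sum + ξ.length)).filter
    fun c => c.1 ≤ c.2 ∧ c.2 < c.1 + ξ.getD c.1 0

/-- Marked shifted tableaux of shape `ξ` with the letters `1' < 1 < 2' < 2 < ... < N' < N`; the letter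
number `a` in this order (`a = 0, ..., 2 N - 1`) is primed if `a` is even, unprimed if `a` is odd, and
its absolute value is `a / 2 + 1`. Rows and columns increase weakly, no unprimed letter repeats within
a column, no primed letter repeats within a row. -/
def IsTableau {N : ℕ} {ξ : List ℕ} (T : cells ξ → Fin (2 * N)) : Prop :=
  (∀ c d : cells ξ, c.1.1 = d.1.1 → c.1.2 < d.1.2 →
    T c ≤ T d ∧ (T c = T d → ¬ Even (T c : ℕ))) ∧
  (∀ c d : cells ξ, c.1.2 = d.1.2 → c.1.1 < d.1.1 →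
    T c ≤ T d ∧ (T c = T d → Even (T c : ℕ)))

/-- the variable number which belongs to the letter `a` -/
def absVal {N : ℕ} (a : Fin (2 * N)) : Fin N := ⟨a / 2, by omega⟩

open Classical in
/-- The Schur `Q`-function of `ξ` in the `N` variables `x 0, ..., x (N - 1)`, with coefficients in
`ℤ[t]`. -/
noncomputable def Q (N : ℕ) (ξ : List ℕ) : MvPolynomial (Fin N) ℤ[X] :=
  ∑ T : cells ξ → Fin (2 * N), if IsTableau T then ∏ c, MvPolynomial.X (absVal (T c)) else 0

/-- The field of fractions of `ℤ[t][x 0, ..., x (N - 1)]`. -/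
abbrev Fr (N : ℕ) : Type := FractionRing (MvPolynomial (Fin N) ℤ[X])

/-- The variable `x i` in the field of fractions. -/
noncomputable def x {N : ℕ} (i : Fin N) : Fr N := algebraMap _ _ (MvPolynomial.X i : MvPolynomial (Fin N) ℤ[X])

/-- A polynomial in `t` as an element of the field of fractions. -/
noncomputable def emb (N : ℕ) (f : ℤ[X]) : Fr N := algebraMap _ _ (MvPolynomial.C f : MvPolynomial (Fin N) ℤ[X])

/-- `v m = ∏_{i = 1}^m (1 - t ^ i) / (1 - t)`. -/
noncomputable def v (m : ℕ) : ℤ[X] := ∏ i ∈ range m, ∑ k ∈ range (i + 1), X ^ k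

/-- `v_μ = ∏_{k ≥ 0} v (m_k)`, `m_k` the number of the `i < N` with `μ i = k`. -/
noncomputable def vv (N : ℕ) (μ : List ℕ) : ℤ[X] :=
  ∏ k ∈ range (μ.sum + 1), v ((univ.filter fun i : Fin N => μ.getD i 0 = k).card)

/-- The Hall-Littlewood polynomial `P_μ (x 0, ..., x (N - 1); t)` of a partition `μ` with at most `N` parts
(Macdonald's normalisation):
`v_μ⁻¹ ∑_{w ∈ S_N} w (x ^ μ ∏_{i < j} (x i - t x j) / (x i - x j))`. -/
noncomputable def P (N : ℕ) (μ : List ℕ) : Fr N :=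
  (emb N (vv N μ))⁻¹ * ∑ w : Equiv.Perm (Fin N), (∏ i, x (w i) ^ μ.getD i 0) *
    ∏ i, ∏ j ∈ Ioi i, (x (w i) - emb N X * x (w j)) / (x (w i) - x (w j))

/-- Partitions: weakly decreasing lists of positive integers. -/
def IsPartition (μ : List ℕ) : Prop := μ.Pairwise (· ≥ ·) ∧ ∀ k ∈ μ, 0 < k

/-- Strict partitions: strictly decreasing lists of positive integers. -/
def IsStrict (ξ : List ℕ) : Prop := ξ.Pairwise (· > ·) ∧ ∀ k ∈ ξ, 0 < k

/-- `Q_ξ (x) = ∑_μ k μ P_μ (x; t)` in the variables `x 0, ..., x (N - 1)`, the sum over the partitions `μ` of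
`|ξ|` with at most `N` parts. -/
def Expansion (N : ℕ) (ξ : List ℕ) (k : List ℕ → ℤ[X]) : Prop :=
  algebraMap _ (Fr N) (Q N ξ) =
    ∑ᶠ μ ∈ {μ : List ℕ | IsPartition μ ∧ μ.sum = ξ.sum ∧ μ.length ≤ N}, emb N (k μ) * P N μ

/-- `K` is the family of the spin Kostka polynomials: `Q_ξ (x) = ∑_μ K ξ μ P_μ (x; t)` for all strict
partitions `ξ` in every number `N` of variables (in `N` variables `P_μ` vanishes if `μ` has more than `N` parts,
and partitions of other numbers do not occur, as `Q_ξ` and `P_μ` are homogeneous of degrees `|ξ|` and `|μ|`). -/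
def IsSpinKostka (K : List ℕ → List ℕ → ℤ[X]) : Prop :=
  ∀ ξ, IsStrict ξ → ∀ N, Expansion N ξ (K ξ)

/-! ### The `Q`-function of `(4, 2)` in three variables -/

/-- `∑_{i < n} f i`, in a form which the kernel evaluates quickly -/
def loop (n : ℕ) (f : ℕ → ℕ) : ℕ := Nat.rec 0 (fun i s => s + f i) n

lemma loop_eq (n : ℕ) (f : ℕ → ℕ) : loop n f = ∑ i ∈ range n, f i := by
  induction n with
  | zero => rfl
  | succ n ih => rw [sum_range_succ, ← ih]; rfl

/-- neighbours in a row -/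
def rowOk (a b : ℕ) : Bool := Nat.blt a b || (Nat.beq a b && Nat.beq (a % 2) 1)
/-- neighbours in a column -/
def colOk (a b : ℕ) : Bool := Nat.blt a b || (Nat.beq a b && Nat.beq (a % 2) 0)

lemma rowOk_iff (a b : ℕ) : rowOk a b = true ↔ a ≤ b ∧ (a = b → ¬ Even a) := by
  simp only [rowOk, Bool.or_eq_true, Bool.and_eq_true, Nat.blt_eq, Nat.beq_eq, Nat.not_even_iff]
  omega

lemma colOk_iff (a b : ℕ) : colOk a b = true ↔ a ≤ b ∧ (a = b → Even a) := by
  simp only [colOk, Bool.or_eq_true, Bool.and_eq_true, Nat.blt_eq, Nat.beq_eq, Nat.even_iff]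
  omega

/-- the number of the tableaux of weight `w` (digits to base `7`) -/
def cnt (w : ℕ) : ℕ :=
  loop 6 fun a => loop 6 fun b => cond (rowOk a b) (loop 6 fun c => cond (rowOk b c)
    (loop 6 fun d => cond (rowOk c d) (loop 6 fun e => cond (colOk b e) (loop 6 fun f =>
      cond (colOk c f && rowOk e f) (cond (Nat.beq
        (7 ^ (a / 2) + 7 ^ (b / 2) + 7 ^ (c / 2) + 7 ^ (d / 2) + 7 ^ (e / 2) + 7 ^ (f / 2)) w) 1 0) 0)
        0) 0) 0) 0


/-- the cells of the diagram of `(4, 2)` in a fixed order -/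
def cell : Fin 6 → cells [4, 2] :=
  ![⟨(0, 0), by decide⟩, ⟨(0, 1), by decide⟩, ⟨(0, 2), by decide⟩, ⟨(0, 3), by decide⟩,
    ⟨(1, 1), by decide⟩, ⟨(1, 2), by decide⟩]

lemma cell_bij : Function.Bijective cell := by
  constructor
  · intro i j h
    have h' : (cell i).1 = (cell j).1 := congrArg Subtype.val h
    revert h'
    revert i j
    decide
  · rintro ⟨c, hc⟩
    have : ∀ c ∈ cells [4, 2], ∃ i, (cell i).1 = c := by decide
    obtain ⟨i, hi⟩ := this c hc
    exact ⟨i, Subtype.ext hi⟩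

noncomputable def cellEquiv : Fin 6 ≃ cells [4, 2] := Equiv.ofBijective cell cell_bij

lemma tableau_iff (g : Fin 6 → Fin (2 * 3)) :
    IsTableau (N := 3) (ξ := [4, 2]) (fun c => g (cellEquiv.symm c)) ↔
      rowOk (g 0) (g 1) = true ∧ rowOk (g 1) (g 2) = true ∧ rowOk (g 2) (g 3) = true ∧
      colOk (g 1) (g 4) = true ∧ (colOk (g 2) (g 5) && rowOk (g 4) (g 5)) = true := by
  have hs : ∀ i, cellEquiv.symm (cell i) = i := fun i => cellEquiv.symm_apply_apply i
  have h1 : IsTableau (N := 3) (ξ := [4, 2]) (fun c => g (cellEquiv.symm c)) ↔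
      (∀ i j : Fin 6, (cell i).1.1 = (cell j).1.1 → (cell i).1.2 < (cell j).1.2 →
        g i ≤ g j ∧ (g i = g j → ¬ Even (g i : ℕ))) ∧
      (∀ i j : Fin 6, (cell i).1.2 = (cell j).1.2 → (cell i).1.1 < (cell j).1.1 →
        g i ≤ g j ∧ (g i = g j → Even (g i : ℕ))) := by
    unfold IsTableau
    constructor
    · rintro ⟨h1, h2⟩
      refine ⟨fun i j hij hij' => ?_, fun i j hij hij' => ?_⟩
      · simpa only [hs] using h1 (cell i) (cell j) hij hij'
      · simpa only [hs] using h2 (cell i) (cell j) hij hij'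
    · rintro ⟨h1, h2⟩
      refine ⟨fun c d hcd hcd' => ?_, fun c d hcd hcd' => ?_⟩
      · obtain ⟨i, rfl⟩ := cell_bij.2 c
        obtain ⟨j, rfl⟩ := cell_bij.2 d
        simpa only [hs] using h1 i j hcd hcd'
      · obtain ⟨i, rfl⟩ := cell_bij.2 c
        obtain ⟨j, rfl⟩ := cell_bij.2 d
        simpa only [hs] using h2 i j hcd hcd'
  rw [h1]
  simp only [Bool.and_eq_true, rowOk_iff, colOk_iff, Fin.val_inj, Fin.val_fin_le]
  constructor
  · rintro ⟨h1, h2⟩
    exact ⟨h1 0 1 (by decide) (by decide), h1 1 2 (by decide) (by decide), h1 2 3 (by decide) (by decide),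
      h2 1 4 (by decide) (by decide), h2 2 5 (by decide) (by decide), h1 4 5 (by decide) (by decide)⟩
  · rintro ⟨a1, a2, a3, a4, a5, a6⟩
    have b1 : g 0 ≤ g 2 ∧ (g 0 = g 2 → ¬ Even (g 0 : ℕ)) :=
      ⟨a1.1.trans a2.1, fun h => a1.2 (le_antisymm a1.1 (h ▸ a2.1))⟩
    have b2 : g 1 ≤ g 3 ∧ (g 1 = g 3 → ¬ Even (g 1 : ℕ)) :=
      ⟨a2.1.trans a3.1, fun h => a2.2 (le_antisymm a2.1 (h ▸ a3.1))⟩
    have b3 : g 0 ≤ g 3 ∧ (g 0 = g 3 → ¬ Even (g 0 : ℕ)) :=
      ⟨b1.1.trans a3.1, fun h => b1.2 (le_antisymm b1.1 (h ▸ a3.1))⟩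
    have key1 : ∀ i j : Fin 6, (cell i).1.1 = (cell j).1.1 → (cell i).1.2 < (cell j).1.2 →
      (i = 0 ∧ j = 1) ∨ (i = 0 ∧ j = 2) ∨ (i = 0 ∧ j = 3) ∨ (i = 1 ∧ j = 2) ∨ (i = 1 ∧ j = 3) ∨
      (i = 2 ∧ j = 3) ∨ (i = 4 ∧ j = 5) := by decide
    have key2 : ∀ i j : Fin 6, (cell i).1.2 = (cell j).1.2 → (cell i).1.1 < (cell j).1.1 →
      (i = 1 ∧ j = 4) ∨ (i = 2 ∧ j = 5) := by decide
    constructor
    · intro i j h h'
      rcases key1 i j h h' with ⟨rfl, rfl⟩ | ⟨rfl, rfl⟩ | ⟨rfl, rfl⟩ | ⟨rfl, rfl⟩ | ⟨rfl, rfl⟩ | ⟨rfl, rfl⟩ |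
        ⟨rfl, rfl⟩ <;> assumption
    · intro i j h h'
      rcases key2 i j h h' with ⟨rfl, rfl⟩ | ⟨rfl, rfl⟩ <;> assumption

/-- six-tuples -/
def tup : (Fin 6 → Fin (2 * 3)) ≃ Fin 6 × Fin 6 × Fin 6 × Fin 6 × Fin 6 × Fin 6 where
  toFun g := (g 0, g 1, g 2, g 3, g 4, g 5)
  invFun p := ![p.1, p.2.1, p.2.2.1, p.2.2.2.1, p.2.2.2.2.1, p.2.2.2.2.2]
  left_inv g := by
    funext i
    fin_cases i <;> rfl
  right_inv p := rfl

/-- the weight of a tableau, as digits to base `7` -/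
def code (g : Fin 6 → Fin (2 * 3)) : ℕ :=
  7 ^ ((g 0 : ℕ) / 2) + 7 ^ ((g 1 : ℕ) / 2) + 7 ^ ((g 2 : ℕ) / 2) + 7 ^ ((g 3 : ℕ) / 2) +
    7 ^ ((g 4 : ℕ) / 2) + 7 ^ ((g 5 : ℕ) / 2)

open Classical in
lemma cnt_eq (w : ℕ) : (univ.filter fun g : Fin 6 → Fin (2 * 3) =>
    IsTableau (N := 3) (ξ := [4, 2]) (fun c => g (cellEquiv.symm c)) ∧ code g = w).card = cnt w := by
  have e : ∀ (p : Bool) (f : Fin 6 → ℕ), cond p (∑ i : Fin 6, f i) 0 = ∑ i : Fin 6, cond p (f i) 0 := by
    intro p f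
    cases p <;> simp
  rw [card_filter]
  rw [← tup.symm.sum_comp]
  simp only [Fintype.sum_prod_type]
  simp only [tableau_iff]
  simp only [tup, code]
  unfold cnt
  simp only [loop_eq]
  simp only [← Fin.sum_univ_eq_sum_range (n := 6)]
  simp only [e]
  refine sum_congr rfl fun a _ => sum_congr rfl fun b _ => sum_congr rfl fun c _ =>
    sum_congr rfl fun d _ => sum_congr rfl fun e _ => sum_congr rfl fun f _ => ?_
  have h : ∀ (p q r s u : Bool) (m n : ℕ), (if (p = true ∧ q = true ∧ r = true ∧ s = true ∧ u = true) ∧ m = n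
      then 1 else 0) = cond p (cond q (cond r (cond s (cond u (cond (Nat.beq m n) 1 0) 0) 0) 0) 0) 0 := by
    intro p q r s u m n
    by_cases hmn : m = n
    · subst hmn
      have : Nat.beq m m = true := Nat.beq_refl m
      cases p <;> cases q <;> cases r <;> cases s <;> cases u <;> simp [this]
    · have : Nat.beq m n = false := by
        rw [← Bool.not_eq_true, Nat.beq_eq]
        exact hmn
      cases p <;> cases q <;> cases r <;> cases s <;> cases u <;> simp [this, hmn]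
  exact h _ _ _ _ _ _ _


/-- monomials -/
noncomputable def mon (w : ℕ) : MvPolynomial (Fin 3) ℤ[X] :=
  MvPolynomial.X 0 ^ (w % 7) * MvPolynomial.X 1 ^ (w / 7 % 7) * MvPolynomial.X 2 ^ (w / 49)

lemma letter (a : Fin (2 * 3)) : ∃ u v w : ℕ, u + v + w = 1 ∧ 7 ^ ((a : ℕ) / 2) = u + 7 * v + 49 * w ∧
    (MvPolynomial.X (absVal a) : MvPolynomial (Fin 3) ℤ[X]) =
      MvPolynomial.X 0 ^ u * MvPolynomial.X 1 ^ v * MvPolynomial.X 2 ^ w := by
  have h : (absVal a = 0 ∧ (a : ℕ) / 2 = 0) ∨ (absVal a = 1 ∧ (a : ℕ) / 2 = 1) ∨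
      (absVal a = 2 ∧ (a : ℕ) / 2 = 2) := by
    revert a
    decide
  rcases h with ⟨h, h'⟩ | ⟨h, h'⟩ | ⟨h, h'⟩
  · exact ⟨1, 0, 0, rfl, by rw [h']; rfl, by rw [h]; simp⟩
  · exact ⟨0, 1, 0, rfl, by rw [h']; rfl, by rw [h]; simp⟩
  · exact ⟨0, 0, 1, rfl, by rw [h']; rfl, by rw [h]; simp⟩

lemma prod_eq (g : Fin 6 → Fin (2 * 3)) :
    ∏ i, (MvPolynomial.X (absVal (g i)) : MvPolynomial (Fin 3) ℤ[X]) = mon (code g) ∧
      ∃ p q : ℕ, p + q ≤ 6 ∧ code g = p + 7 * q + 49 * (6 - p - q) := by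
  obtain ⟨u0, v0, w0, s0, c0, h0⟩ := letter (g 0)
  obtain ⟨u1, v1, w1, s1, c1, h1⟩ := letter (g 1)
  obtain ⟨u2, v2, w2, s2, c2, h2⟩ := letter (g 2)
  obtain ⟨u3, v3, w3, s3, c3, h3⟩ := letter (g 3)
  obtain ⟨u4, v4, w4, s4, c4, h4⟩ := letter (g 4)
  obtain ⟨u5, v5, w5, s5, c5, h5⟩ := letter (g 5)
  have hc : code g = (u0 + u1 + u2 + u3 + u4 + u5) + 7 * (v0 + v1 + v2 + v3 + v4 + v5) +
      49 * (w0 + w1 + w2 + w3 + w4 + w5) := by
    unfold code
    rw [c0, c1, c2, c3, c4, c5]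
    ring
  constructor
  · rw [Fin.prod_univ_six, h0, h1, h2, h3, h4, h5]
    have e0 : code g % 7 = u0 + u1 + u2 + u3 + u4 + u5 := by omega
    have e1 : code g / 7 % 7 = v0 + v1 + v2 + v3 + v4 + v5 := by omega
    have e2 : code g / 49 = w0 + w1 + w2 + w3 + w4 + w5 := by omega
    unfold mon
    rw [e0, e1, e2]
    ring
  · exact ⟨u0 + u1 + u2 + u3 + u4 + u5, v0 + v1 + v2 + v3 + v4 + v5, by omega, by omega⟩

/-- the possible weights -/
def W : Finset ℕ := ((range 7 ×ˢ range 7).filter fun p => p.1 + p.2 ≤ 6).image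
  fun p => p.1 + 7 * p.2 + 49 * (6 - p.1 - p.2)

lemma Q_eq_sum : Q 3 [4, 2] = ∑ w ∈ W, cnt w • mon w := by
  classical
  unfold Q
  rw [← (cellEquiv.arrowCongr (Equiv.refl (Fin (2 * 3)))).sum_comp]
  have h1 : ∀ g : Fin 6 → Fin (2 * 3),
      ∏ c, (MvPolynomial.X (absVal ((cellEquiv.arrowCongr (Equiv.refl (Fin (2 * 3)))) g c)) :
        MvPolynomial (Fin 3) ℤ[X]) = mon (code g) := by
    intro g
    rw [← (prod_eq g).1, ← cellEquiv.prod_comp]
    refine prod_congr rfl fun i _ => ?_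
    simp [Equiv.arrowCongr]
  simp only [h1]
  rw [← sum_filter]
  have h2 : ∀ g ∈ univ.filter (fun g : Fin 6 → Fin (2 * 3) => IsTableau (N := 3) (ξ := [4, 2])
      ((cellEquiv.arrowCongr (Equiv.refl (Fin (2 * 3)))) g)), code g ∈ W := by
    intro g _
    obtain ⟨p, q, hpq, h⟩ := (prod_eq g).2
    unfold W
    rw [mem_image]
    exact ⟨(p, q), by simp; omega, h.symm⟩
  rw [← sum_fiberwise_of_maps_to h2]
  refine sum_congr rfl fun w _ => ?_
  rw [sum_congr rfl (g := fun _ => mon w) (by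
    intro g hg
    rw [mem_filter] at hg
    rw [hg.2]), sum_const, ← cnt_eq w, filter_filter]
  rfl

/-- monomial symmetric polynomials in three variables -/
noncomputable def y (i : Fin 3) : MvPolynomial (Fin 3) ℤ[X] := MvPolynomial.X i

set_option maxRecDepth 100000 in
lemma cnt_vals : cnt 6 = 0 ∧ cnt 12 = 0 ∧ cnt 18 = 4 ∧ cnt 24 = 8 ∧ cnt 30 = 4 ∧ cnt 36 = 0 ∧ cnt 42 = 0 ∧ cnt 54 = 0 ∧ cnt 60 = 8 ∧ cnt 66 = 24 ∧ cnt 72 = 24 ∧ cnt 78 = 8 ∧ cnt 84 = 0 ∧ cnt 102 = 4 ∧ cnt 108 = 24 ∧ cnt 114 = 40 ∧ cnt 120 = 24 ∧ cnt 126 = 4 ∧ cnt 150 = 8 ∧ cnt 156 = 24 ∧ cnt 162 = 24 ∧ cnt 168 = 8 ∧ cnt 198 = 4 ∧ cnt 204 = 8 ∧ cnt 210 = 4 ∧ cnt 246 = 0 ∧ cnt 252 = 0 ∧ cnt 294 = 0 := by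
  decide +kernel

lemma Q_eq : Q 3 [4, 2] =
    4 * (y 0 ^ 4 * y 1 ^ 2 + y 0 ^ 4 * y 2 ^ 2 + y 1 ^ 4 * y 0 ^ 2 + y 1 ^ 4 * y 2 ^ 2 + y 2 ^ 4 * y 0 ^ 2 +
      y 2 ^ 4 * y 1 ^ 2) +
    8 * (y 0 ^ 4 * y 1 * y 2 + y 0 * y 1 ^ 4 * y 2 + y 0 * y 1 * y 2 ^ 4) +
    8 * (y 0 ^ 3 * y 1 ^ 3 + y 0 ^ 3 * y 2 ^ 3 + y 1 ^ 3 * y 2 ^ 3) +
    24 * (y 0 ^ 3 * y 1 ^ 2 * y 2 + y 0 ^ 3 * y 2 ^ 2 * y 1 + y 1 ^ 3 * y 0 ^ 2 * y 2 + y 1 ^ 3 * y 2 ^ 2 * y 0 +
      y 2 ^ 3 * y 0 ^ 2 * y 1 + y 2 ^ 3 * y 1 ^ 2 * y 0) +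
    40 * (y 0 ^ 2 * y 1 ^ 2 * y 2 ^ 2) := by
  rw [Q_eq_sum]
  have hW : W = {6, 12, 18, 24, 30, 36, 42, 54, 60, 66, 72, 78, 84, 102, 108, 114, 120, 126, 150, 156, 162, 168, 198, 204, 210, 246, 252, 294} := by decide
  rw [hW]
  obtain ⟨c6, c12, c18, c24, c30, c36, c42, c54, c60, c66, c72, c78, c84, c102, c108, c114, c120, c126, c150, c156, c162, c168, c198, c204, c210, c246, c252, c294⟩ := cnt_vals
  rw [sum_insert (by decide)]
  rw [sum_insert (by decide)]
  rw [sum_insert (by decide)]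
  rw [sum_insert (by decide)]
  rw [sum_insert (by decide)]
  rw [sum_insert (by decide)]
  rw [sum_insert (by decide)]
  rw [sum_insert (by decide)]
  rw [sum_insert (by decide)]
  rw [sum_insert (by decide)]
  rw [sum_insert (by decide)]
  rw [sum_insert (by decide)]
  rw [sum_insert (by decide)]
  rw [sum_insert (by decide)]
  rw [sum_insert (by decide)]
  rw [sum_insert (by decide)]
  rw [sum_insert (by decide)]
  rw [sum_insert (by decide)]
  rw [sum_insert (by decide)]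
  rw [sum_insert (by decide)]
  rw [sum_insert (by decide)]
  rw [sum_insert (by decide)]
  rw [sum_insert (by decide)]
  rw [sum_insert (by decide)]
  rw [sum_insert (by decide)]
  rw [sum_insert (by decide)]
  rw [sum_insert (by decide)]
  rw [sum_singleton, c6, c12, c18, c24, c30, c36, c42, c54, c60, c66, c72, c78, c84, c102, c108, c114, c120, c126, c150, c156, c162, c168, c198, c204, c210, c246, c252, c294]
  simp only [mon, y]
  norm_num
  ring

/-! ### The Hall-Littlewood polynomials in three variables -/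

/-- one of the six terms -/
noncomputable def R (a b c t : Fr 3) (p q r : ℕ) : Fr 3 :=
  (a ^ p * b ^ q * c ^ r) * (((a - t * b) / (a - b) * ((a - t * c) / (a - c))) * ((b - t * c) / (b - c)))

lemma perms : (univ : Finset (Equiv.Perm (Fin 3))) =
    {1, Equiv.swap 0 1, Equiv.swap 0 2, Equiv.swap 1 2, Equiv.swap 0 1 * Equiv.swap 1 2,
      Equiv.swap 0 2 * Equiv.swap 1 2} := by decide

lemma P_eq_R (μ : List ℕ) : P 3 μ = (emb 3 (vv 3 μ))⁻¹ *
    (R (x 0) (x 1) (x 2) (emb 3 X) (μ.getD 0 0) (μ.getD 1 0) (μ.getD 2 0) +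
    R (x 1) (x 0) (x 2) (emb 3 X) (μ.getD 0 0) (μ.getD 1 0) (μ.getD 2 0) +
    R (x 2) (x 1) (x 0) (emb 3 X) (μ.getD 0 0) (μ.getD 1 0) (μ.getD 2 0) +
    R (x 0) (x 2) (x 1) (emb 3 X) (μ.getD 0 0) (μ.getD 1 0) (μ.getD 2 0) +
    R (x 1) (x 2) (x 0) (emb 3 X) (μ.getD 0 0) (μ.getD 1 0) (μ.getD 2 0) +
    R (x 2) (x 0) (x 1) (emb 3 X) (μ.getD 0 0) (μ.getD 1 0) (μ.getD 2 0)) := by
  have hI0 : Ioi (0 : Fin 3) = {1, 2} := by decide
  have hI1 : Ioi (1 : Fin 3) = {2} := by decide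
  have hI2 : Ioi (2 : Fin 3) = ∅ := by decide
  have key : ∀ w : Equiv.Perm (Fin 3), (∏ i, (x (w i) : Fr 3) ^ μ.getD i 0) *
      ∏ i, ∏ j ∈ Ioi i, ((x (w i) : Fr 3) - emb 3 X * x (w j)) / (x (w i) - x (w j)) =
      R (x (w 0)) (x (w 1)) (x (w 2)) (emb 3 X) (μ.getD 0 0) (μ.getD 1 0) (μ.getD 2 0) := by
    intro w
    rw [Fin.prod_univ_three, Fin.prod_univ_three, hI0, hI1, hI2, prod_pair (by decide), prod_singleton,
      prod_empty, mul_one]
    rfl
  unfold P
  congr 1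
  simp only [key]
  rw [perms, sum_insert (by decide), sum_insert (by decide), sum_insert (by decide), sum_insert (by decide),
    sum_insert (by decide), sum_singleton]
  have a1 : (Equiv.swap (0 : Fin 3) 1) 0 = 1 := by decide
  have a2 : (Equiv.swap (0 : Fin 3) 1) 1 = 0 := by decide
  have a3 : (Equiv.swap (0 : Fin 3) 1) 2 = 2 := by decide
  have b1 : (Equiv.swap (0 : Fin 3) 2) 0 = 2 := by decide
  have b2 : (Equiv.swap (0 : Fin 3) 2) 1 = 1 := by decide
  have b3 : (Equiv.swap (0 : Fin 3) 2) 2 = 0 := by decide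
  have c1 : (Equiv.swap (1 : Fin 3) 2) 0 = 0 := by decide
  have c2 : (Equiv.swap (1 : Fin 3) 2) 1 = 2 := by decide
  have c3 : (Equiv.swap (1 : Fin 3) 2) 2 = 1 := by decide
  simp only [Equiv.Perm.one_apply, Equiv.Perm.mul_apply, a1, a2, a3, b1, b2, b3, c1, c2, c3]
  ring

lemma emb_ne {f : ℤ[X]} (hf : f ≠ 0) : emb 3 f ≠ 0 := by
  unfold emb
  intro h
  rw [FaithfulSMul.algebraMap_eq_zero_iff, MvPolynomial.C_eq_zero] at h
  exact hf h

lemma x_ne {i j : Fin 3} (h : i ≠ j) : (x i : Fr 3) - x j ≠ 0 := by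
  unfold x
  rw [← map_sub]
  intro h0
  rw [FaithfulSMul.algebraMap_eq_zero_iff, sub_eq_zero] at h0
  exact h (MvPolynomial.X_injective h0)

lemma v1 : v 1 = 1 := by simp [v]
lemma v0 : v 0 = 1 := by simp [v]
lemma v2 : v 2 = 1 + X := by simp [v, prod_range_succ, sum_range_succ]
lemma v3 : v 3 = (1 + X) * (1 + X + X ^ 2) := by simp [v, prod_range_succ, sum_range_succ]

lemma emb_one : emb 3 1 = 1 := by simp [emb]
lemma emb_add (f g : ℤ[X]) : emb 3 (f + g) = emb 3 f + emb 3 g := by simp [emb]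
lemma emb_mul (f g : ℤ[X]) : emb 3 (f * g) = emb 3 f * emb 3 g := by simp [emb]
lemma emb_pow (f : ℤ[X]) (n : ℕ) : emb 3 (f ^ n) = emb 3 f ^ n := by simp [emb]
lemma one_add_ne : (1 + X : ℤ[X]) ≠ 0 := by
  intro h
  have := congrArg (Polynomial.eval 0) h
  simp at this
lemma one_add_ne' : (1 + X + X ^ 2 : ℤ[X]) ≠ 0 := by
  intro h
  have := congrArg (Polynomial.eval 0) h
  simp at this

lemma vv_6 : vv 3 [6] = 1 + X := by
  have h0 : (univ.filter fun i : Fin 3 => ([6] : List ℕ).getD i 0 = 0).card = 2 := by decide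
  have h1 : (univ.filter fun i : Fin 3 => ([6] : List ℕ).getD i 0 = 1).card = 0 := by decide
  have h2 : (univ.filter fun i : Fin 3 => ([6] : List ℕ).getD i 0 = 2).card = 0 := by decide
  have h3 : (univ.filter fun i : Fin 3 => ([6] : List ℕ).getD i 0 = 3).card = 0 := by decide
  have h4 : (univ.filter fun i : Fin 3 => ([6] : List ℕ).getD i 0 = 4).card = 0 := by decide
  have h5 : (univ.filter fun i : Fin 3 => ([6] : List ℕ).getD i 0 = 5).card = 0 := by decide
  have h6 : (univ.filter fun i : Fin 3 => ([6] : List ℕ).getD i 0 = 6).card = 1 := by decide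
  have hs : ([6] : List ℕ).sum + 1 = 7 := by decide
  rw [vv, hs]
  simp only [prod_range_succ, prod_range_zero, h0, h1, h2, h3, h4, h5, h6, v0, v1, v2, v3]
  try ring

lemma vv_51 : vv 3 [5, 1] = 1 := by
  have h0 : (univ.filter fun i : Fin 3 => ([5, 1] : List ℕ).getD i 0 = 0).card = 1 := by decide
  have h1 : (univ.filter fun i : Fin 3 => ([5, 1] : List ℕ).getD i 0 = 1).card = 1 := by decide
  have h2 : (univ.filter fun i : Fin 3 => ([5, 1] : List ℕ).getD i 0 = 2).card = 0 := by decide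
  have h3 : (univ.filter fun i : Fin 3 => ([5, 1] : List ℕ).getD i 0 = 3).card = 0 := by decide
  have h4 : (univ.filter fun i : Fin 3 => ([5, 1] : List ℕ).getD i 0 = 4).card = 0 := by decide
  have h5 : (univ.filter fun i : Fin 3 => ([5, 1] : List ℕ).getD i 0 = 5).card = 1 := by decide
  have h6 : (univ.filter fun i : Fin 3 => ([5, 1] : List ℕ).getD i 0 = 6).card = 0 := by decide
  have hs : ([5, 1] : List ℕ).sum + 1 = 7 := by decide
  rw [vv, hs]
  simp only [prod_range_succ, prod_range_zero, h0, h1, h2, h3, h4, h5, h6, v0, v1, v2, v3]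
  try ring

lemma vv_42 : vv 3 [4, 2] = 1 := by
  have h0 : (univ.filter fun i : Fin 3 => ([4, 2] : List ℕ).getD i 0 = 0).card = 1 := by decide
  have h1 : (univ.filter fun i : Fin 3 => ([4, 2] : List ℕ).getD i 0 = 1).card = 0 := by decide
  have h2 : (univ.filter fun i : Fin 3 => ([4, 2] : List ℕ).getD i 0 = 2).card = 1 := by decide
  have h3 : (univ.filter fun i : Fin 3 => ([4, 2] : List ℕ).getD i 0 = 3).card = 0 := by decide
  have h4 : (univ.filter fun i : Fin 3 => ([4, 2] : List ℕ).getD i 0 = 4).card = 1 := by decide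
  have h5 : (univ.filter fun i : Fin 3 => ([4, 2] : List ℕ).getD i 0 = 5).card = 0 := by decide
  have h6 : (univ.filter fun i : Fin 3 => ([4, 2] : List ℕ).getD i 0 = 6).card = 0 := by decide
  have hs : ([4, 2] : List ℕ).sum + 1 = 7 := by decide
  rw [vv, hs]
  simp only [prod_range_succ, prod_range_zero, h0, h1, h2, h3, h4, h5, h6, v0, v1, v2, v3]
  try ring

lemma vv_411 : vv 3 [4, 1, 1] = 1 + X := by
  have h0 : (univ.filter fun i : Fin 3 => ([4, 1, 1] : List ℕ).getD i 0 = 0).card = 0 := by decide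
  have h1 : (univ.filter fun i : Fin 3 => ([4, 1, 1] : List ℕ).getD i 0 = 1).card = 2 := by decide
  have h2 : (univ.filter fun i : Fin 3 => ([4, 1, 1] : List ℕ).getD i 0 = 2).card = 0 := by decide
  have h3 : (univ.filter fun i : Fin 3 => ([4, 1, 1] : List ℕ).getD i 0 = 3).card = 0 := by decide
  have h4 : (univ.filter fun i : Fin 3 => ([4, 1, 1] : List ℕ).getD i 0 = 4).card = 1 := by decide
  have h5 : (univ.filter fun i : Fin 3 => ([4, 1, 1] : List ℕ).getD i 0 = 5).card = 0 := by decide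
  have h6 : (univ.filter fun i : Fin 3 => ([4, 1, 1] : List ℕ).getD i 0 = 6).card = 0 := by decide
  have hs : ([4, 1, 1] : List ℕ).sum + 1 = 7 := by decide
  rw [vv, hs]
  simp only [prod_range_succ, prod_range_zero, h0, h1, h2, h3, h4, h5, h6, v0, v1, v2, v3]
  try ring

lemma vv_33 : vv 3 [3, 3] = 1 + X := by
  have h0 : (univ.filter fun i : Fin 3 => ([3, 3] : List ℕ).getD i 0 = 0).card = 1 := by decide
  have h1 : (univ.filter fun i : Fin 3 => ([3, 3] : List ℕ).getD i 0 = 1).card = 0 := by decide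
  have h2 : (univ.filter fun i : Fin 3 => ([3, 3] : List ℕ).getD i 0 = 2).card = 0 := by decide
  have h3 : (univ.filter fun i : Fin 3 => ([3, 3] : List ℕ).getD i 0 = 3).card = 2 := by decide
  have h4 : (univ.filter fun i : Fin 3 => ([3, 3] : List ℕ).getD i 0 = 4).card = 0 := by decide
  have h5 : (univ.filter fun i : Fin 3 => ([3, 3] : List ℕ).getD i 0 = 5).card = 0 := by decide
  have h6 : (univ.filter fun i : Fin 3 => ([3, 3] : List ℕ).getD i 0 = 6).card = 0 := by decide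
  have hs : ([3, 3] : List ℕ).sum + 1 = 7 := by decide
  rw [vv, hs]
  simp only [prod_range_succ, prod_range_zero, h0, h1, h2, h3, h4, h5, h6, v0, v1, v2, v3]
  try ring

lemma vv_321 : vv 3 [3, 2, 1] = 1 := by
  have h0 : (univ.filter fun i : Fin 3 => ([3, 2, 1] : List ℕ).getD i 0 = 0).card = 0 := by decide
  have h1 : (univ.filter fun i : Fin 3 => ([3, 2, 1] : List ℕ).getD i 0 = 1).card = 1 := by decide
  have h2 : (univ.filter fun i : Fin 3 => ([3, 2, 1] : List ℕ).getD i 0 = 2).card = 1 := by decide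
  have h3 : (univ.filter fun i : Fin 3 => ([3, 2, 1] : List ℕ).getD i 0 = 3).card = 1 := by decide
  have h4 : (univ.filter fun i : Fin 3 => ([3, 2, 1] : List ℕ).getD i 0 = 4).card = 0 := by decide
  have h5 : (univ.filter fun i : Fin 3 => ([3, 2, 1] : List ℕ).getD i 0 = 5).card = 0 := by decide
  have h6 : (univ.filter fun i : Fin 3 => ([3, 2, 1] : List ℕ).getD i 0 = 6).card = 0 := by decide
  have hs : ([3, 2, 1] : List ℕ).sum + 1 = 7 := by decide
  rw [vv, hs]
  simp only [prod_range_succ, prod_range_zero, h0, h1, h2, h3, h4, h5, h6, v0, v1, v2, v3]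
  try ring

lemma vv_222 : vv 3 [2, 2, 2] = (1 + X) * (1 + X + X ^ 2) := by
  have h0 : (univ.filter fun i : Fin 3 => ([2, 2, 2] : List ℕ).getD i 0 = 0).card = 0 := by decide
  have h1 : (univ.filter fun i : Fin 3 => ([2, 2, 2] : List ℕ).getD i 0 = 1).card = 0 := by decide
  have h2 : (univ.filter fun i : Fin 3 => ([2, 2, 2] : List ℕ).getD i 0 = 2).card = 3 := by decide
  have h3 : (univ.filter fun i : Fin 3 => ([2, 2, 2] : List ℕ).getD i 0 = 3).card = 0 := by decide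
  have h4 : (univ.filter fun i : Fin 3 => ([2, 2, 2] : List ℕ).getD i 0 = 4).card = 0 := by decide
  have h5 : (univ.filter fun i : Fin 3 => ([2, 2, 2] : List ℕ).getD i 0 = 5).card = 0 := by decide
  have h6 : (univ.filter fun i : Fin 3 => ([2, 2, 2] : List ℕ).getD i 0 = 6).card = 0 := by decide
  have hs : ([2, 2, 2] : List ℕ).sum + 1 = 7 := by decide
  rw [vv, hs]
  simp only [prod_range_succ, prod_range_zero, h0, h1, h2, h3, h4, h5, h6, v0, v1, v2, v3]
  try ring

/-- the monomial symmetric polynomials of degree six -/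
def m6 {A : Type*} [CommRing A] (a b c : A) : A := a ^ 6 + b ^ 6 + c ^ 6
def m51 {A : Type*} [CommRing A] (a b c : A) : A :=
  a ^ 5 * b + a ^ 5 * c + b ^ 5 * a + b ^ 5 * c + c ^ 5 * a + c ^ 5 * b
def m42 {A : Type*} [CommRing A] (a b c : A) : A :=
  a ^ 4 * b ^ 2 + a ^ 4 * c ^ 2 + b ^ 4 * a ^ 2 + b ^ 4 * c ^ 2 + c ^ 4 * a ^ 2 + c ^ 4 * b ^ 2
def m411 {A : Type*} [CommRing A] (a b c : A) : A := a ^ 4 * b * c + a * b ^ 4 * c + a * b * c ^ 4
def m33 {A : Type*} [CommRing A] (a b c : A) : A := a ^ 3 * b ^ 3 + a ^ 3 * c ^ 3 + b ^ 3 * c ^ 3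
def m321 {A : Type*} [CommRing A] (a b c : A) : A :=
  a ^ 3 * b ^ 2 * c + a ^ 3 * c ^ 2 * b + b ^ 3 * a ^ 2 * c + b ^ 3 * c ^ 2 * a + c ^ 3 * a ^ 2 * b +
    c ^ 3 * b ^ 2 * a
def m222 {A : Type*} [CommRing A] (a b c : A) : A := a ^ 2 * b ^ 2 * c ^ 2

def p6 {A : Type*} [CommRing A] (a b c t : A) : A :=
  (1) * m6 a b c +
    (1 - 1 * t ^ 1) * m51 a b c +
    (1 - 1 * t ^ 1) * m42 a b c +
    (1 - 2 * t ^ 1 + 1 * t ^ 2) * m411 a b c +
    (1 - 1 * t ^ 1) * m33 a b c +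
    (1 - 2 * t ^ 1 + 1 * t ^ 2) * m321 a b c +
    (1 - 2 * t ^ 1 + 1 * t ^ 2) * m222 a b c

lemma P_6 : P 3 [6] = p6 (x 0) (x 1) (x 2) (emb 3 X) := by
  have h01 := x_ne (i := 0) (j := 1) (by decide)
  have h02 := x_ne (i := 0) (j := 2) (by decide)
  have h12 := x_ne (i := 1) (j := 2) (by decide)
  have h10 := x_ne (i := 1) (j := 0) (by decide)
  have h20 := x_ne (i := 2) (j := 0) (by decide)
  have h21 := x_ne (i := 2) (j := 1) (by decide)
  rw [P_eq_R, vv_6]
  have hv := emb_ne (f := 1 + X) one_add_ne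
  rw [emb_add, emb_one] at hv ⊢
  simp only [List.getD_cons_zero, List.getD_cons_succ, List.getD_nil]
  generalize (x 0 : Fr 3) = a at *
  generalize (x 1 : Fr 3) = b at *
  generalize (x 2 : Fr 3) = c at *
  generalize emb 3 X = t at *
  simp only [R, p6, m6, m51, m42, m411, m33, m321, m222]
  have e10 : b - a = -(a - b) := by ring
  have e20 : c - a = -(a - c) := by ring
  have e21 : c - b = -(b - c) := by ring
  simp only [e10, e20, e21]
  field_simp
  ring

def p51 {A : Type*} [CommRing A] (a b c t : A) : A :=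
  (1) * m51 a b c +
    (1 - 1 * t ^ 1) * m42 a b c +
    (2 - 2 * t ^ 1) * m411 a b c +
    (1 - 1 * t ^ 1) * m33 a b c +
    (2 - 3 * t ^ 1 + 1 * t ^ 2) * m321 a b c +
    (2 - 4 * t ^ 1 + 2 * t ^ 2) * m222 a b c

lemma P_51 : P 3 [5, 1] = p51 (x 0) (x 1) (x 2) (emb 3 X) := by
  have h01 := x_ne (i := 0) (j := 1) (by decide)
  have h02 := x_ne (i := 0) (j := 2) (by decide)
  have h12 := x_ne (i := 1) (j := 2) (by decide)
  have h10 := x_ne (i := 1) (j := 0) (by decide)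
  have h20 := x_ne (i := 2) (j := 0) (by decide)
  have h21 := x_ne (i := 2) (j := 1) (by decide)
  rw [P_eq_R, vv_51]
  rw [emb_one, inv_one, one_mul]
  simp only [List.getD_cons_zero, List.getD_cons_succ, List.getD_nil]
  generalize (x 0 : Fr 3) = a at *
  generalize (x 1 : Fr 3) = b at *
  generalize (x 2 : Fr 3) = c at *
  generalize emb 3 X = t at *
  simp only [R, p51, m51, m42, m411, m33, m321, m222]
  have e10 : b - a = -(a - b) := by ring
  have e20 : c - a = -(a - c) := by ring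
  have e21 : c - b = -(b - c) := by ring
  simp only [e10, e20, e21]
  field_simp
  ring

def p42 {A : Type*} [CommRing A] (a b c t : A) : A :=
  (1) * m42 a b c +
    (1 - 1 * t ^ 1) * m411 a b c +
    (1 - 1 * t ^ 1) * m33 a b c +
    (2 - 3 * t ^ 1 + 1 * t ^ 2) * m321 a b c +
    (3 - 4 * t ^ 1 + 2 * t ^ 2 - 1 * t ^ 3) * m222 a b c

lemma P_42 : P 3 [4, 2] = p42 (x 0) (x 1) (x 2) (emb 3 X) := by
  have h01 := x_ne (i := 0) (j := 1) (by decide)
  have h02 := x_ne (i := 0) (j := 2) (by decide)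
  have h12 := x_ne (i := 1) (j := 2) (by decide)
  have h10 := x_ne (i := 1) (j := 0) (by decide)
  have h20 := x_ne (i := 2) (j := 0) (by decide)
  have h21 := x_ne (i := 2) (j := 1) (by decide)
  rw [P_eq_R, vv_42]
  rw [emb_one, inv_one, one_mul]
  simp only [List.getD_cons_zero, List.getD_cons_succ, List.getD_nil]
  generalize (x 0 : Fr 3) = a at *
  generalize (x 1 : Fr 3) = b at *
  generalize (x 2 : Fr 3) = c at *
  generalize emb 3 X = t at *
  simp only [R, p42, m42, m411, m33, m321, m222]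
  have e10 : b - a = -(a - b) := by ring
  have e20 : c - a = -(a - c) := by ring
  have e21 : c - b = -(b - c) := by ring
  simp only [e10, e20, e21]
  field_simp
  ring

def p411 {A : Type*} [CommRing A] (a b c t : A) : A :=
  (1) * m411 a b c +
    (1 - 1 * t ^ 1) * m321 a b c +
    (1 - 2 * t ^ 1 + 1 * t ^ 2) * m222 a b c

lemma P_411 : P 3 [4, 1, 1] = p411 (x 0) (x 1) (x 2) (emb 3 X) := by
  have h01 := x_ne (i := 0) (j := 1) (by decide)
  have h02 := x_ne (i := 0) (j := 2) (by decide)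
  have h12 := x_ne (i := 1) (j := 2) (by decide)
  have h10 := x_ne (i := 1) (j := 0) (by decide)
  have h20 := x_ne (i := 2) (j := 0) (by decide)
  have h21 := x_ne (i := 2) (j := 1) (by decide)
  rw [P_eq_R, vv_411]
  have hv := emb_ne (f := 1 + X) one_add_ne
  rw [emb_add, emb_one] at hv ⊢
  simp only [List.getD_cons_zero, List.getD_cons_succ, List.getD_nil]
  generalize (x 0 : Fr 3) = a at *
  generalize (x 1 : Fr 3) = b at *
  generalize (x 2 : Fr 3) = c at *
  generalize emb 3 X = t at *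
  simp only [R, p411, m411, m321, m222]
  have e10 : b - a = -(a - b) := by ring
  have e20 : c - a = -(a - c) := by ring
  have e21 : c - b = -(b - c) := by ring
  simp only [e10, e20, e21]
  field_simp
  ring

def p33 {A : Type*} [CommRing A] (a b c t : A) : A :=
  (1) * m33 a b c +
    (1 - 1 * t ^ 1) * m321 a b c +
    (1 - 2 * t ^ 1 + 1 * t ^ 2) * m222 a b c

lemma P_33 : P 3 [3, 3] = p33 (x 0) (x 1) (x 2) (emb 3 X) := by
  have h01 := x_ne (i := 0) (j := 1) (by decide)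
  have h02 := x_ne (i := 0) (j := 2) (by decide)
  have h12 := x_ne (i := 1) (j := 2) (by decide)
  have h10 := x_ne (i := 1) (j := 0) (by decide)
  have h20 := x_ne (i := 2) (j := 0) (by decide)
  have h21 := x_ne (i := 2) (j := 1) (by decide)
  rw [P_eq_R, vv_33]
  have hv := emb_ne (f := 1 + X) one_add_ne
  rw [emb_add, emb_one] at hv ⊢
  simp only [List.getD_cons_zero, List.getD_cons_succ, List.getD_nil]
  generalize (x 0 : Fr 3) = a at *
  generalize (x 1 : Fr 3) = b at *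
  generalize (x 2 : Fr 3) = c at *
  generalize emb 3 X = t at *
  simp only [R, p33, m33, m321, m222]
  have e10 : b - a = -(a - b) := by ring
  have e20 : c - a = -(a - c) := by ring
  have e21 : c - b = -(b - c) := by ring
  simp only [e10, e20, e21]
  field_simp
  ring

def p321 {A : Type*} [CommRing A] (a b c t : A) : A :=
  (1) * m321 a b c +
    (2 - 1 * t ^ 1 - 1 * t ^ 2) * m222 a b c

lemma P_321 : P 3 [3, 2, 1] = p321 (x 0) (x 1) (x 2) (emb 3 X) := by
  have h01 := x_ne (i := 0) (j := 1) (by decide)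
  have h02 := x_ne (i := 0) (j := 2) (by decide)
  have h12 := x_ne (i := 1) (j := 2) (by decide)
  have h10 := x_ne (i := 1) (j := 0) (by decide)
  have h20 := x_ne (i := 2) (j := 0) (by decide)
  have h21 := x_ne (i := 2) (j := 1) (by decide)
  rw [P_eq_R, vv_321]
  rw [emb_one, inv_one, one_mul]
  simp only [List.getD_cons_zero, List.getD_cons_succ, List.getD_nil]
  generalize (x 0 : Fr 3) = a at *
  generalize (x 1 : Fr 3) = b at *
  generalize (x 2 : Fr 3) = c at *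
  generalize emb 3 X = t at *
  simp only [R, p321, m321, m222]
  have e10 : b - a = -(a - b) := by ring
  have e20 : c - a = -(a - c) := by ring
  have e21 : c - b = -(b - c) := by ring
  simp only [e10, e20, e21]
  field_simp
  ring

def p222 {A : Type*} [CommRing A] (a b c t : A) : A :=
  (1) * m222 a b c

lemma P_222 : P 3 [2, 2, 2] = p222 (x 0) (x 1) (x 2) (emb 3 X) := by
  have h01 := x_ne (i := 0) (j := 1) (by decide)
  have h02 := x_ne (i := 0) (j := 2) (by decide)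
  have h12 := x_ne (i := 1) (j := 2) (by decide)
  have h10 := x_ne (i := 1) (j := 0) (by decide)
  have h20 := x_ne (i := 2) (j := 0) (by decide)
  have h21 := x_ne (i := 2) (j := 1) (by decide)
  rw [P_eq_R, vv_222]
  have hv := emb_ne (f := 1 + X) one_add_ne
  have hv' := emb_ne (f := 1 + X + X ^ 2) one_add_ne'
  rw [emb_mul, emb_add, emb_one]
  rw [emb_add, emb_one] at hv
  rw [emb_add, emb_add, emb_one, emb_pow] at hv' ⊢
  simp only [List.getD_cons_zero, List.getD_cons_succ, List.getD_nil]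
  generalize (x 0 : Fr 3) = a at *
  generalize (x 1 : Fr 3) = b at *
  generalize (x 2 : Fr 3) = c at *
  generalize emb 3 X = t at *
  simp only [R, p222, m222]
  have e10 : b - a = -(a - b) := by ring
  have e20 : c - a = -(a - c) := by ring
  have e21 : c - b = -(b - c) := by ring
  simp only [e10, e20, e21]
  field_simp
  ring


/-! ### The expansion of `Q_(4, 2)` -/

lemma parts_eq : {μ : List ℕ | IsPartition μ ∧ μ.sum = ([4, 2] : List ℕ).sum ∧ μ.length ≤ 3} =
    (({[6], [5, 1], [4, 2], [4, 1, 1], [3, 3], [3, 2, 1], [2, 2, 2]} : Finset (List ℕ)) : Set (List ℕ)) := by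
  ext μ
  simp only [Set.mem_ofPred_eq, coe_insert, coe_singleton, Set.mem_insert_iff, Set.mem_singleton_iff]
  constructor
  · rintro ⟨⟨h1, h2⟩, h3, h4⟩
    rcases μ with _ | ⟨a, _ | ⟨b, _ | ⟨c, _ | ⟨d, l⟩⟩⟩⟩
    · simp at h3
    · simp only [List.sum_cons, List.sum_nil] at h3
      have : a = 6 := by omega
      subst this
      simp
    · simp only [List.sum_cons, List.sum_nil, List.pairwise_cons, List.mem_cons, List.not_mem_nil] at h1 h2 h3
      have h5 : b ≤ a := h1.1 b (by simp)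
      have h6 : 0 < b := h2 b (by simp)
      have h7 : b ≤ 3 := by omega
      have h8 : a = 6 - b := by omega
      subst h8
      interval_cases b <;> simp
    · simp only [List.sum_cons, List.sum_nil, List.pairwise_cons, List.mem_cons, List.not_mem_nil] at h1 h2 h3
      have h5 : b ≤ a := h1.1 b (by simp)
      have h5' : c ≤ b := h1.2.1 c (by simp)
      have h6 : 0 < c := h2 c (by simp)
      have h7 : c ≤ 2 := by omega
      have h7' : b ≤ 2 := by omega
      have h8 : a = 6 - b - c := by omega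
      subst h8
      interval_cases b <;> interval_cases c <;> simp_all
    · simp only [List.length_cons] at h4
      omega
  · rintro (rfl | rfl | rfl | rfl | rfl | rfl | rfl) <;> simp [IsPartition]

/-- the expansion as an identity between polynomials -/
lemma expansion_iff (k : List ℕ → ℤ[X]) : algebraMap _ (Fr 3) (Q 3 [4, 2]) =
    ∑ᶠ μ ∈ {μ : List ℕ | IsPartition μ ∧ μ.sum = ([4, 2] : List ℕ).sum ∧ μ.length ≤ 3}, emb 3 (k μ) * P 3 μ ↔
    Q 3 [4, 2] = MvPolynomial.C (k [6]) * p6 (y 0) (y 1) (y 2) (MvPolynomial.C X) +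
      MvPolynomial.C (k [5, 1]) * p51 (y 0) (y 1) (y 2) (MvPolynomial.C X) +
      MvPolynomial.C (k [4, 2]) * p42 (y 0) (y 1) (y 2) (MvPolynomial.C X) +
      MvPolynomial.C (k [4, 1, 1]) * p411 (y 0) (y 1) (y 2) (MvPolynomial.C X) +
      MvPolynomial.C (k [3, 3]) * p33 (y 0) (y 1) (y 2) (MvPolynomial.C X) +
      MvPolynomial.C (k [3, 2, 1]) * p321 (y 0) (y 1) (y 2) (MvPolynomial.C X) +
      MvPolynomial.C (k [2, 2, 2]) * p222 (y 0) (y 1) (y 2) (MvPolynomial.C X) := by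
  rw [parts_eq, finsum_mem_coe_finset]
  rw [sum_insert (by decide), sum_insert (by decide), sum_insert (by decide), sum_insert (by decide),
    sum_insert (by decide), sum_insert (by decide), sum_singleton]
  rw [P_6, P_51, P_42, P_411, P_33, P_321, P_222]
  have hx : ∀ i, (x i : Fr 3) = algebraMap _ _ (y i) := fun i => rfl
  have he : ∀ f, emb 3 f = algebraMap _ _ (MvPolynomial.C f : MvPolynomial (Fin 3) ℤ[X]) := fun f => rfl
  have hinj : Function.Injective (algebraMap (MvPolynomial (Fin 3) ℤ[X]) (Fr 3)) :=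
    FaithfulSMul.algebraMap_injective _ _
  rw [← hinj.eq_iff]
  simp only [p6, p51, p42, p411, p33, p321, p222, m6, m51, m42, m411, m33, m321, m222, hx, he, map_add, map_mul,
    map_sub, map_pow, map_ofNat, map_one, add_assoc]

/-- a substitution which separates the monomials of degree six -/
noncomputable def φ : MvPolynomial (Fin 3) ℤ[X] →ₐ[ℤ[X]] Polynomial ℤ[X] :=
  MvPolynomial.aeval ![X ^ 49, X ^ 7, 1]

lemma φ0 : φ (y 0) = X ^ 49 := by simp [φ, y]
lemma φ1 : φ (y 1) = X ^ 7 := by simp [φ, y]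
lemma φ2 : φ (y 2) = 1 := by simp [φ, y]
lemma φC (f : ℤ[X]) : φ (MvPolynomial.C f) = C f := by simp [φ]

lemma solve (Y : Polynomial ℤ[X]) (hY : Y = X) (k6 k51 k42 k411 k33 k321 k222 y6 y51 y42 y411 y33 y321 y222 : ℤ[X])
    (hy6 : y6 = k6 * (1) - 0)
    (hy51 : y51 = k6 * (1 - 1 * X ^ 1) + k51 * (1) - 0)
    (hy42 : y42 = k6 * (1 - 1 * X ^ 1) + k51 * (1 - 1 * X ^ 1) + k42 * (1) - 4)
    (hy411 : y411 = k6 * (1 - 2 * X ^ 1 + 1 * X ^ 2) + k51 * (2 - 2 * X ^ 1) + k42 * (1 - 1 * X ^ 1) + k411 * (1) - 8)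
    (hy33 : y33 = k6 * (1 - 1 * X ^ 1) + k51 * (1 - 1 * X ^ 1) + k42 * (1 - 1 * X ^ 1) + k33 * (1) - 8)
    (hy321 : y321 = k6 * (1 - 2 * X ^ 1 + 1 * X ^ 2) + k51 * (2 - 3 * X ^ 1 + 1 * X ^ 2) + k42 * (2 - 3 * X ^ 1 + 1 * X ^ 2) + k411 * (1 - 1 * X ^ 1) + k33 * (1 - 1 * X ^ 1) + k321 * (1) - 24)
    (hy222 : y222 = k6 * (1 - 2 * X ^ 1 + 1 * X ^ 2) + k51 * (2 - 4 * X ^ 1 + 2 * X ^ 2) + k42 * (3 - 4 * X ^ 1 + 2 * X ^ 2 - 1 * X ^ 3) + k411 * (1 - 2 * X ^ 1 + 1 * X ^ 2) + k33 * (1 - 2 * X ^ 1 + 1 * X ^ 2) + k321 * (2 - 1 * X ^ 1 - 1 * X ^ 2) + k222 * (1) - 40)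
    (h : (C y6 * (Y ^ 294 + Y ^ 42 + Y ^ 0) +
      C y51 * (Y ^ 252 + Y ^ 245 + Y ^ 84 + Y ^ 49 + Y ^ 35 + Y ^ 7) +
      C y42 * (Y ^ 210 + Y ^ 196 + Y ^ 126 + Y ^ 98 + Y ^ 28 + Y ^ 14) +
      C y411 * (Y ^ 203 + Y ^ 77 + Y ^ 56) +
      C y33 * (Y ^ 168 + Y ^ 147 + Y ^ 21) +
      C y321 * (Y ^ 161 + Y ^ 154 + Y ^ 119 + Y ^ 105 + Y ^ 70 + Y ^ 63) +
      C y222 * (Y ^ 112) : Polynomial ℤ[X]) = 0) :
    k6 = 0 ∧ k51 = 0 ∧ k42 = 4 ∧ k411 = 4 * (1 + X) ∧ k33 = 4 * (1 + X) ∧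
      k321 = 4 * (2 + 3 * X + X ^ 2) ∧ k222 = 4 * (1 + 2 * X + 3 * X ^ 2 + 3 * X ^ 3 + X ^ 4) := by
  subst hY
  have g0 : y6 = 0 := by
    have h2 := congrArg (fun f => coeff f 294) h
    simp only [coeff_add, coeff_C_mul, coeff_X_pow, coeff_zero] at h2
    norm_num at h2
    exact h2
  have g1 : y51 = 0 := by
    have h2 := congrArg (fun f => coeff f 252) h
    simp only [coeff_add, coeff_C_mul, coeff_X_pow, coeff_zero] at h2
    norm_num at h2
    exact h2
  have g2 : y42 = 0 := by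
    have h2 := congrArg (fun f => coeff f 210) h
    simp only [coeff_add, coeff_C_mul, coeff_X_pow, coeff_zero] at h2
    norm_num at h2
    exact h2
  have g3 : y411 = 0 := by
    have h2 := congrArg (fun f => coeff f 203) h
    simp only [coeff_add, coeff_C_mul, coeff_X_pow, coeff_zero] at h2
    norm_num at h2
    exact h2
  have g4 : y33 = 0 := by
    have h2 := congrArg (fun f => coeff f 168) h
    simp only [coeff_add, coeff_C_mul, coeff_X_pow, coeff_zero] at h2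
    norm_num at h2
    exact h2
  have g5 : y321 = 0 := by
    have h2 := congrArg (fun f => coeff f 161) h
    simp only [coeff_add, coeff_C_mul, coeff_X_pow, coeff_zero] at h2
    norm_num at h2
    exact h2
  have g6 : y222 = 0 := by
    have h2 := congrArg (fun f => coeff f 112) h
    simp only [coeff_add, coeff_C_mul, coeff_X_pow, coeff_zero] at h2
    norm_num at h2
    exact h2
  have e6 : k6 = 0 := by linear_combination g0 - hy6
  have e51 : k51 = 0 := by linear_combination g1 - hy51 - e6 * (1 - X)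
  have e42 : k42 = 4 := by linear_combination g2 - hy42 - e6 * (1 - X) - e51 * (1 - X)
  have e411 : k411 = 4 * (1 + X) := by
    linear_combination g3 - hy411 - e6 * (1 - X) ^ 2 - e51 * (2 - 2 * X) - e42 * (1 - X)
  have e33 : k33 = 4 * (1 + X) := by
    linear_combination g4 - hy33 - e6 * (1 - X) - e51 * (1 - X) - e42 * (1 - X)
  have e321 : k321 = 4 * (2 + 3 * X + X ^ 2) := by
    linear_combination g5 - hy321 - e6 * (1 - X) ^ 2 - e51 * (2 - 3 * X + X ^ 2) - e42 * (2 - 3 * X + X ^ 2) -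
      e411 * (1 - X) - e33 * (1 - X)
  have e222 : k222 = 4 * (1 + 2 * X + 3 * X ^ 2 + 3 * X ^ 3 + X ^ 4) := by
    linear_combination g6 - hy222 - e6 * (1 - X) ^ 2 - e51 * (2 - 4 * X + 2 * X ^ 2) -
      e42 * (3 - 4 * X + 2 * X ^ 2 - X ^ 3) - e411 * (1 - X) ^ 2 - e33 * (1 - X) ^ 2 - e321 * (2 - X - X ^ 2)
  exact ⟨e6, e51, e42, e411, e33, e321, e222⟩

lemma expansion_only (k : List ℕ → ℤ[X]) (h : algebraMap _ (Fr 3) (Q 3 [4, 2]) =
    ∑ᶠ μ ∈ {μ : List ℕ | IsPartition μ ∧ μ.sum = ([4, 2] : List ℕ).sum ∧ μ.length ≤ 3}, emb 3 (k μ) * P 3 μ) :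
    k [6] = 0 ∧ k [5, 1] = 0 ∧ k [4, 2] = 4 ∧ k [4, 1, 1] = 4 * (1 + X) ∧ k [3, 3] = 4 * (1 + X) ∧
      k [3, 2, 1] = 4 * (2 + 3 * X + X ^ 2) ∧ k [2, 2, 2] = 4 * (1 + 2 * X + 3 * X ^ 2 + 3 * X ^ 3 + X ^ 4) := by
  rw [expansion_iff, Q_eq] at h
  have h := congrArg φ h
  simp only [p6, p51, p42, p411, p33, p321, p222, m6, m51, m42, m411, m33, m321, m222, map_add, map_mul,
    map_sub, map_pow, map_ofNat, map_one, φ0, φ1, φ2, φC] at h
  refine solve X rfl _ _ _ _ _ _ _ _ _ _ _ _ _ _ rfl rfl rfl rfl rfl rfl rfl ?_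
  simp only [map_add, map_mul, map_sub, map_pow, map_ofNat, map_one, map_zero]
  linear_combination -h

/-! ### The result -/

lemma not_pal (m : ℤ) : LaurentPolynomial.T m * LaurentPolynomial.invert (Polynomial.toLaurent (4 * (2 + 3 * X + X ^ 2) : ℤ[X])) ≠
    Polynomial.toLaurent (4 * (2 + 3 * X + X ^ 2) : ℤ[X]) := by
  have e : Polynomial.toLaurent (4 * (2 + 3 * X + X ^ 2) : ℤ[X]) =
      LaurentPolynomial.C 8 * LaurentPolynomial.T 0 + LaurentPolynomial.C 12 * LaurentPolynomial.T 1 + LaurentPolynomial.C 4 * LaurentPolynomial.T 2 := by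
    have h2 : (LaurentPolynomial.T 2 : LaurentPolynomial ℤ) = LaurentPolynomial.T 1 ^ 2 := by
      rw [LaurentPolynomial.T_pow]; norm_num
    rw [h2, LaurentPolynomial.T_zero]
    simp only [map_mul, map_add, map_pow, map_ofNat, Polynomial.toLaurent_X]
    ring
  rw [e]
  simp only [map_add, map_mul, LaurentPolynomial.invert_C, LaurentPolynomial.invert_T]
  intro h
  have h' : LaurentPolynomial.C (8 : ℤ) * LaurentPolynomial.T m + LaurentPolynomial.C (12 : ℤ) * LaurentPolynomial.T (m - 1) + LaurentPolynomial.C (4 : ℤ) * LaurentPolynomial.T (m - 2) =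
      LaurentPolynomial.C 8 * LaurentPolynomial.T 0 + LaurentPolynomial.C 12 * LaurentPolynomial.T 1 + LaurentPolynomial.C 4 * LaurentPolynomial.T 2 := by
    rw [← h, mul_add, mul_add]
    simp only [mul_left_comm (LaurentPolynomial.T m), ← LaurentPolynomial.T_add, sub_eq_add_neg, neg_zero, add_zero]
  simp only [← LaurentPolynomial.single_eq_C_mul_T] at h'
  have key : ∀ n : ℤ, ((if m = n then 8 else 0) + (if m - 1 = n then 12 else 0) + (if m - 2 = n then 4 else 0) : ℤ) =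
      (if 0 = n then 8 else 0) + (if 1 = n then 12 else 0) + (if 2 = n then 4 else 0) := by
    intro n
    have := congrArg (fun g => AddMonoidAlgebra.coeff g n) h'
    simpa only [AddMonoidAlgebra.coeff_add, AddMonoidAlgebra.coeff_single, Finsupp.add_apply, Finsupp.single_apply]
      using this
  have k1 := key m
  have k2 := key (-2)
  simp at k1 k2
  split_ifs at k1 k2 <;> omega

lemma expansion_exists : Expansion 3 [4, 2] (fun μ => if μ = [4, 2] then 4 else if μ = [4, 1, 1] then 4 * (1 + X)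
    else if μ = [3, 3] then 4 * (1 + X) else if μ = [3, 2, 1] then 4 * (2 + 3 * X + X ^ 2) else
    if μ = [2, 2, 2] then 4 * (1 + 2 * X + 3 * X ^ 2 + 3 * X ^ 3 + X ^ 4) else 0) := by
  unfold Expansion
  rw [expansion_iff, Q_eq]
  simp (decide := true) only [reduceIte, map_zero, zero_mul, zero_add]
  simp only [p42, p411, p33, p321, p222, m42, m411, m33, m321, m222, map_add, map_mul,
    map_pow, map_ofNat, map_one]
  ring

/-- **The spin Kostka polynomials are not all palindromic.** In three variables the expansion of the Schur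
`Q`-function of `(4, 2)` in Hall-Littlewood polynomials exists, and for every such expansion, in particular for the
family of the spin Kostka polynomials, the coefficient of `P_(3, 2, 1)` is `8 + 12 t + 4 t ^ 2`, which is not equal to
`t ^ m` times its value at `1 / t`, for any integer `m`. -/
theorem result :
    IsStrict [4, 2] ∧ IsPartition [3, 2, 1] ∧ (∃ k, Expansion 3 [4, 2] k) ∧
    (∀ k, Expansion 3 [4, 2] k → k [3, 2, 1] = 8 + 12 * X + 4 * X ^ 2) ∧
    ∀ K, IsSpinKostka K → K [4, 2] [3, 2, 1] = 8 + 12 * X + 4 * X ^ 2 ∧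
      ∀ m : ℤ, LaurentPolynomial.T m * LaurentPolynomial.invert (Polynomial.toLaurent (K [4, 2] [3, 2, 1])) ≠
        Polynomial.toLaurent (K [4, 2] [3, 2, 1]) := by
  have h42 : IsStrict [4, 2] := by simp [IsStrict]
  have key : ∀ k, Expansion 3 [4, 2] k → k [3, 2, 1] = 4 * (2 + 3 * X + X ^ 2) := fun k hk =>
    (expansion_only k hk).2.2.2.2.2.1
  refine ⟨h42, by simp [IsPartition], ⟨_, expansion_exists⟩, fun k hk => ?_, fun K hK => ?_⟩
  · rw [key k hk]
    ring
  · have h := key (K [4, 2]) (hK [4, 2] h42 3)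
    refine ⟨by rw [h]; ring, fun m => ?_⟩
    rw [h]
    exact not_pal m

end Pool.Agent.Results.MP_2c9e21_co.NotPalindromic
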